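import Pool.Agent.H78.GX.H1.N4D.WTS

/-!
# WLG: the weight of `(P, P ^ (2 K)]`
-/

set_option autoImplicit false

open Finset Pool.Agent.H6.N4D Pool.Agent.H78.GX.H6.N4D Pool.Agent.H78.GX

namespace Pool.Agent.H78.GX.H1.N4D

theorem pf_WLG (hMER : T_MER) : T_WLG := by
  obtain ⟨C, hC⟩ := hMER
  have hC0 := mer_nonneg hC
  obtain ⟨X₀, hX₀⟩ := LL_large (2 * C + 1)
  refine ⟨4, by norm_num, fun K hK => ⟨X₀, fun X hX => ?_⟩⟩
  have hL := hX₀ X hX
  have hL0 : 0 < LL X := by linarith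
  have hP := one_lt_PP hL0
  have hdy : ∀ m : ℕ, ∑ p ∈ Pr (PP X) (PP X ^ 2 ^ m), 1 / (p : ℝ) ≤ 2 * m := by
    intro m
    induction m with
    | zero =>
      have h1 : Pr (PP X) (PP X ^ 2 ^ 0) = ∅ := by
        rw [pow_zero, pow_one]
        unfold Pr
        rw [Ioc_self, filter_empty]
      rw [h1, sum_empty]
      simp
    | succ m ih =>
      have h1 : ∑ p ∈ Pr (PP X) (PP X ^ 2 ^ (m + 1)), 1 / (p : ℝ) =
          ∑ p ∈ Pr (PP X) (PP X ^ 2 ^ m), 1 / (p : ℝ) +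
          ∑ p ∈ Pr (PP X ^ 2 ^ m) (PP X ^ 2 ^ (m + 1)), 1 / (p : ℝ) := by
        unfold Pr
        rw [sum_filter, sum_filter, sum_filter, sum_Ioc_consecutive]
        · exact Nat.floor_le_floor (le_self_pow₀ hP.le (by positivity))
        · exact Nat.floor_le_floor (pow_le_pow_right₀ hP.le
            (Nat.pow_le_pow_right (by norm_num) (Nat.le_succ m)))
      have h2 : 1 < PP X ^ 2 ^ m := one_lt_pow₀ hP (by positivity)
      have h3 := wt_up hC h2 (show PP X ^ 2 ^ m ≤ PP X ^ 2 ^ (m + 1) from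
        pow_le_pow_right₀ hP.le (Nat.pow_le_pow_right (by norm_num) (Nat.le_succ m)))
      rw [log_PP_pow, log_PP_pow] at h3
      have h4 : (1 : ℝ) ≤ 2 ^ m := one_le_pow₀ (by norm_num)
      have h5 : (((2 ^ (m + 1) : ℕ) : ℝ) * LL X - ((2 ^ m : ℕ) : ℝ) * LL X + 2 * C) /
          (((2 ^ m : ℕ) : ℝ) * LL X) ≤ 2 := by
        push_cast
        rw [div_le_iff₀ (by positivity), pow_succ]
        nlinarith
      rw [h1]
      push_cast
      linarith
  have hK1 : (1 : ℝ) ≤ K := by exact_mod_cast hK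
  have h1 : 2 * K < 2 ^ (Nat.log 2 (2 * K) + 1) := Nat.lt_pow_succ_log_self (by norm_num) _
  have h2 : 2 ^ Nat.log 2 (2 * K) ≤ 2 * K := Nat.pow_log_le_self 2 (by omega)
  obtain ⟨m, hm⟩ : ∃ m, m = Nat.log 2 (2 * K) := ⟨_, rfl⟩
  rw [← hm] at h1 h2
  have h3 : ∑ p ∈ Pr (PP X) (PP X ^ (2 * K)), 1 / (p : ℝ) ≤
      ∑ p ∈ Pr (PP X) (PP X ^ 2 ^ (m + 1)), 1 / (p : ℝ) := by
    refine sum_le_sum_of_subset_of_nonneg ?_ fun p _ _ => by positivity
    unfold Pr
    refine filter_subset_filter _ (Ioc_subset_Ioc_right ?_)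
    exact Nat.floor_le_floor (pow_le_pow_right₀ hP.le h1.le)
  have h4 := hdy (m + 1)
  have h5 : (m : ℝ) * Real.log 2 ≤ Real.log 2 + Real.log K := by
    rw [← Real.log_pow, ← Real.log_mul (by norm_num) (by positivity)]
    refine Real.log_le_log (by positivity) ?_
    exact_mod_cast h2
  have h6 : (1 : ℝ) / 2 ≤ Real.log 2 := by
    have := Real.log_two_gt_d9
    linarith
  have h7 : 0 ≤ Real.log K := Real.log_nonneg hK1
  have h8 : (m : ℝ) ≤ 1 + 2 * Real.log K := by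
    by_contra h
    push Not at h
    nlinarith
  push_cast at h4
  linarith

end Pool.Agent.H78.GX.H1.N4D
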