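import Pool.Agent.H78.GX.H6.N4D.TA

/-!
# SIZ: sizes, consequences of the conditions on the parameters
-/

set_option autoImplicit false

open Finset Pool.Agent.H6.N4D Pool.Agent.H78.GX.H6.N4D Pool.Agent.H78.GX

namespace Pool.Agent.H78.GX.H1.N4D

theorem pf_SIZ : T_SIZ := by
  obtain ⟨X₁, hX₁⟩ := LL_large 5
  refine ⟨max X₁ (10 ^ 8), fun S hS hX => ?_⟩
  have hL : 5 ≤ S.L := hX₁ S.X ((le_max_left _ _).trans hX)
  have hX8 : (10 : ℝ) ^ 8 ≤ S.X := (le_max_right _ _).trans hX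
  have hX0 : 0 < S.X := by linarith [hS.hX]
  have hh := hS.hh
  have hr0 := hS.hr0
  have hK1 : (1 : ℝ) ≤ S.K := by exact_mod_cast hS.hK
  have hP100 : 100 ≤ S.P := by
    have h1 : S.P = Real.exp S.L := rfl
    rw [h1]
    have h2 : Real.exp 5 ≤ Real.exp S.L := Real.exp_le_exp.2 hL
    have h3 : Real.exp 5 = Real.exp 1 ^ 5 := by
      rw [← Real.exp_nat_mul]
      norm_num
    have h4 : (2.7 : ℝ) ^ 5 ≤ Real.exp 1 ^ 5 :=
      pow_le_pow_left₀ (by norm_num) (by linarith [Real.exp_one_gt_d9]) 5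
    have h5 : (100 : ℝ) ≤ 2.7 ^ 5 := by norm_num
    linarith
  have hNh : 0 < S.N * S.h := by
    have h1 : 0 < 12 * (S.K : ℝ) * S.L := by positivity
    linarith [hS.hI1]
  have hN : 0 < S.N := (pos_iff_pos_of_mul_pos hNh).2 hh
  have hab : S.a ≤ S.b := by
    have h1 : (S.a : ℝ) < S.b := by
      have : 0 < (S.b : ℝ) - S.a := hN
      linarith
    exact_mod_cast h1.le
  have hxa : 0 < S.x S.a := Par.x_pos _
  have hxab : S.x S.a ≤ S.X := (Par.x_mono hh hab).trans hS.hb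
  have hP1 : (1 : ℝ) ≤ S.P ^ (100 * S.K) := one_le_pow₀ (by linarith)
  have hrx : 1 ≤ S.rho * S.x S.a := hP1.trans hS.hra
  have hrX : 1 ≤ S.rho * S.X := hrx.trans (mul_le_mul_of_nonneg_left hxab hr0.le)
  have hr100 : S.rho ≤ 1 / 100 := by
    have h1 : (100 : ℝ) ≤ S.P ^ (100 * S.K) :=
      hP100.trans (le_self_pow₀ (by linarith) (by have := hS.hK; omega))
    have h2 := hS.hr1
    have h3 : S.rho * 100 ≤ S.rho * S.P ^ (100 * S.K) := mul_le_mul_of_nonneg_left h1 hr0.le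
    linarith
  have hX1 := hS.hX
  have hh4 : S.h ≤ S.rho ^ 4 := by
    have h1 : S.h * S.X ^ 4 ≤ 1 := by
      refine le_trans ?_ hS.hX5
      exact mul_le_mul_of_nonneg_left (pow_le_pow_right₀ hX1 (by norm_num)) hh.le
    have h2 : 1 ≤ S.rho ^ 4 * S.X ^ 4 := by
      rw [← mul_pow]
      exact one_le_pow₀ hrX
    have h3 : 0 < S.X ^ 4 := by positivity
    exact le_of_mul_le_mul_right (h1.trans h2) h3
  have hr2 : S.rho ^ 2 ≤ 1 / 2 := by nlinarith
  have hr2p : 0 < S.rho ^ 2 := by positivity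
  have hh2 : S.h ≤ S.rho ^ 2 / 2 := by
    have h1 : S.rho ^ 4 = S.rho ^ 2 * S.rho ^ 2 := by ring
    nlinarith
  have hq0 : 0 ≤ S.rho ^ 2 / S.h := by positivity
  have hqh : S.rho ^ 2 / S.h * S.h = S.rho ^ 2 := div_mul_cancel₀ _ hh.ne'
  have hVle : (S.V : ℝ) * S.h ≤ S.rho ^ 2 := by
    have h1 : (S.V : ℝ) ≤ S.rho ^ 2 / S.h := Nat.floor_le hq0
    have h2 := mul_le_mul_of_nonneg_right h1 hh.le
    rwa [hqh] at h2
  have hVge : S.rho ^ 2 / 2 ≤ (S.V : ℝ) * S.h := by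
    have h1 : S.rho ^ 2 / S.h - 1 < (S.V : ℝ) := Nat.sub_one_lt_floor _
    have h2 := mul_lt_mul_of_pos_right h1 hh
    rw [sub_mul, hqh, one_mul] at h2
    linarith
  refine ⟨by linarith, hP100, ?_, hr100, hh4, hVge, hVle, ?_, ?_, ?_, ?_, hN,
    Par.card_I hN.le⟩
  · rw [div_le_iff₀ hX0]
    exact hrX
  · refine Nat.le_floor ?_
    rw [Nat.cast_one, le_div_iff₀ hh]
    linarith
  · intro t ht
    obtain ⟨h1, h2⟩ := Par.mem_I.1 ht
    refine ⟨hS.hra.trans (mul_le_mul_of_nonneg_left (Par.x_mono hh h1) hr0.le),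
      (Par.x_mono hh h2.le).trans hS.hb, Nat.sub_one_lt_floor _, ?_⟩
    exact Nat.floor_le (Par.x_pos t).le
  · intro p _
    have h1 := abs_sub_round (Real.log p / S.h)
    have h2 : S.h * (S.l p : ℝ) - Real.log p =
        -(S.h * (Real.log p / S.h - (round (Real.log p / S.h) : ℝ))) := by
      have h3 : S.h * (Real.log p / S.h) = Real.log p := mul_div_cancel₀ _ hh.ne'
      have h4 : (S.l p : ℝ) = (round (Real.log p / S.h) : ℝ) := rfl
      rw [h4, mul_sub, h3]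
      ring
    rw [h2, abs_neg, abs_mul, abs_of_pos hh]
    have h3 := mul_le_mul_of_nonneg_left h1 hh.le
    linarith
  · have h1 : Real.log (2 : ℕ) / S.h = ((2 ^ S.J : ℤ) : ℝ) := by
      rw [div_eq_iff hh.ne']
      push_cast
      rw [← hS.hJ]
      ring
    unfold Par.l
    rw [h1, round_intCast]

end Pool.Agent.H78.GX.H1.N4D
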